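import Pool.Agent.Helper10.Fam.Stmts

set_option autoImplicit false

namespace Pool.Agent.Helper10.Fam

open scoped BigOperators

lemma iso_sumsq (a b : ℕ → ℝ) (s t : ℝ) (N : ℕ) :
    ∑ i ∈ Finset.range N, (s * a i + t * b i) ^ 2
      = s ^ 2 * ∑ i ∈ Finset.range N, a i * a i + 2 * (s * t) * ∑ i ∈ Finset.range N, a i * b i
        + t ^ 2 * ∑ i ∈ Finset.range N, b i * b i := by
  simp only [Finset.mul_sum, ← Finset.sum_add_distrib]
  refine Finset.sum_congr rfl fun i _ => ?_
  ring

lemma iso_null {D : Dat} (hD : DOK D) (hC : ST_LSTC) :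
    bl D.G (fn D.w0) (fn D.w0)
      = 2 * ∑ i ∈ Finset.range (D.n + 2), fn D.w0 i * fn D.w0 i := by
  rw [hC.bl_range D.G (D.n + 2) _ _ hD.lenG hD.lenG', Finset.mul_sum]
  refine Finset.sum_congr rfl fun i hi => ?_
  have hi2 : i < D.n + 2 := Finset.mem_range.1 hi
  by_cases h : i < D.n + 1
  · have h1 := hD.null i h
    have h2 : (∑ k ∈ Finset.range (D.n + 2), (ent D.G i k : ℝ) * fn D.w0 k) = 2 * fn D.w0 i := by
      have := congrArg (fun z : ℕ => (z : ℝ)) h1
      simp only [Nat.cast_sum, Nat.cast_mul, Nat.cast_ofNat] at this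
      exact this
    have h3 : ∑ j ∈ Finset.range (D.n + 2), (ent D.G i j : ℝ) * fn D.w0 i * fn D.w0 j
        = fn D.w0 i * ∑ k ∈ Finset.range (D.n + 2), (ent D.G i k : ℝ) * fn D.w0 k := by
      rw [Finset.mul_sum]
      refine Finset.sum_congr rfl fun j _ => ?_
      ring
    rw [h3, h2]
    ring
  · have h4 : i = D.n + 1 := by omega
    have h5 : fn D.w0 i = 0 := by
      rw [h4, fn, hD.w0a]
      simp
    rw [h5]
    simp

theorem st_ISO (hA : ST_LSTA) (hC : ST_LSTC) : ST_ISO := by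
  intro D hD w _ hne hok x hx hw h0
  simp only [isoOK, Bool.and_eq_true, Bool.or_eq_true] at hok
  obtain ⟨⟨hl, hiso⟩, hor⟩ := hok
  have hl' : w.length = D.n + 2 := Nat.eq_of_beq_eq_true hl
  have hiso' : dn w (mv D.G w) = 2 * dn w w := Nat.eq_of_beq_eq_true hiso
  have hcr : 4 * dn D.w0 w + 2 ≤ dn w (mv D.G D.w0) + dn D.w0 (mv D.G w) := by
    rcases hor with h | h
    · exfalso
      apply hne
      have key : ∀ a b : List ℕ, beqL a b = true → a = b := by
        intro a
        induction a with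
        | nil =>
          intro b hb
          cases b with
          | nil => rfl
          | cons _ _ => simp [beqL] at hb
        | cons a s ih =>
          intro b hb
          cases b with
          | nil => simp [beqL] at hb
          | cons b t =>
            simp only [beqL, Bool.and_eq_true] at hb
            rw [Nat.eq_of_beq_eq_true hb.1, ih t hb.2]
      exact key _ _ h
    · exact Nat.le_of_ble_eq_true h
  have e1 : ∀ u v : List ℕ, ((dn u (mv D.G v) : ℕ) : ℝ) = bl D.G (fn u) (fn v) := by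
    intro u v
    rw [hA.dn_comm, hA.dn_eq, hC.mv_fn]
  have e2 : ∀ u v : List ℕ, u.length = D.n + 2 → ((dn u v : ℕ) : ℝ)
      = ∑ i ∈ Finset.range (D.n + 2), fn u i * fn v i := by
    intro u v hu
    rw [hA.dn_eq, hA.dx_range u (D.n + 2) _ hu]
  set a := fn D.w0 with ha
  set b := fn w with hb
  set u0 := dx D.w0 x with hu0
  set uw := dx w x with huw
  have f1 : bl D.G b b = 2 * ∑ i ∈ Finset.range (D.n + 2), b i * b i := by
    have := congrArg (fun z : ℕ => (z : ℝ)) hiso'
    simp only [Nat.cast_mul, Nat.cast_ofNat] at this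
    rw [e1, e2 w w hl'] at this
    exact this
  have f0 : bl D.G a a = 2 * ∑ i ∈ Finset.range (D.n + 2), a i * a i := iso_null hD hC
  have f2 : 4 * (∑ i ∈ Finset.range (D.n + 2), a i * b i) + 2
      ≤ bl D.G b a + bl D.G a b := by
    have : ((4 * dn D.w0 w + 2 : ℕ) : ℝ) ≤ ((dn w (mv D.G D.w0) + dn D.w0 (mv D.G w) : ℕ) : ℝ) :=
      Nat.cast_le.2 hcr
    push_cast at this
    rw [e1, e1, e2 D.w0 w hD.lenw] at this
    exact this
  have g0 : u0 = ∑ i ∈ Finset.range (D.n + 2), a i * x i :=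
    hA.dx_range D.w0 (D.n + 2) x hD.lenw
  have g1 : uw = ∑ i ∈ Finset.range (D.n + 2), b i * x i :=
    hA.dx_range w (D.n + 2) x hl'
  have hr := hx.rcm (fun i => uw * a i + u0 * b i)
  have hbl : bl D.G (fun i => uw * a i + u0 * b i) (fun i => uw * a i + u0 * b i)
      = uw ^ 2 * bl D.G a a + uw * u0 * (bl D.G b a + bl D.G a b) + u0 ^ 2 * bl D.G b b := by
    rw [hC.bl_add_left D.G (fun i => uw * a i) (fun i => u0 * b i),
      hC.bl_smul_left D.G uw a, hC.bl_smul_left D.G u0 b,
      hC.bl_add_right D.G a (fun i => uw * a i) (fun i => u0 * b i),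
      hC.bl_add_right D.G b (fun i => uw * a i) (fun i => u0 * b i),
      hC.bl_smul_right, hC.bl_smul_right, hC.bl_smul_right, hC.bl_smul_right]
    ring
  have hsum : ∑ i ∈ Finset.range (D.n + 2), (uw * a i + u0 * b i) * x i = 2 * (u0 * uw) := by
    have : ∑ i ∈ Finset.range (D.n + 2), (uw * a i + u0 * b i) * x i
        = uw * ∑ i ∈ Finset.range (D.n + 2), a i * x i
          + u0 * ∑ i ∈ Finset.range (D.n + 2), b i * x i := by
      rw [Finset.mul_sum, Finset.mul_sum, ← Finset.sum_add_distrib]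
      refine Finset.sum_congr rfl fun i _ => ?_
      ring
    rw [this, ← g0, ← g1]
    ring
  rw [hbl, iso_sumsq, hsum, f0, f1] at hr
  have hq : 0 < uw * u0 := mul_pos hw h0
  have h5 : uw * u0 * (4 * (∑ i ∈ Finset.range (D.n + 2), a i * b i) + 2)
      ≤ uw * u0 * (bl D.G b a + bl D.G a b) := mul_le_mul_of_nonneg_left f2 hq.le
  have h6 : 2 * (uw * u0) ≤ 4 * (uw * u0) ^ 2 := by nlinarith
  have h7 : 2 * (uw * u0) * 1 ≤ 2 * (uw * u0) * (2 * (uw * u0)) := by nlinarith
  exact le_of_mul_le_mul_left h7 (by linarith)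

end Pool.Agent.Helper10.Fam
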